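import Pool.Agent.Helper57.SS.Goals

/-! # SS, packet LF6: existence of the limit functional -/

set_option autoImplicit false

namespace Pool.Agent.Helper38.SS

open MeasureTheory Filter Topology
open Pool.Agent.Helper57.SS

theorem avg_le_one (N : ℕ) (u : ℕ → ℝ) (hu : ∀ k, |u k| ≤ 1) :
    |(N : ℝ)⁻¹ * ∑ k ∈ Finset.range N, u k| ≤ 1 := by
  have h1 : |∑ k ∈ Finset.range N, u k| ≤ N := by
    calc |∑ k ∈ Finset.range N, u k| ≤ ∑ k ∈ Finset.range N, |u k| :=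
          Finset.abs_sum_le_sum_abs _ _
      _ ≤ ∑ k ∈ Finset.range N, (1 : ℝ) := Finset.sum_le_sum fun k _ => hu k
      _ = N := by simp
  rw [abs_mul, abs_of_nonneg (by positivity : (0 : ℝ) ≤ (N : ℝ)⁻¹)]
  rcases Nat.eq_zero_or_pos N with h | h
  · subst h; simp
  · have hN : (0 : ℝ) < N := by exact_mod_cast h
    calc (N : ℝ)⁻¹ * |∑ k ∈ Finset.range N, u k| ≤ (N : ℝ)⁻¹ * N :=
          mul_le_mul_of_nonneg_left h1 (by positivity)
      _ = 1 := inv_mul_cancel₀ hN.ne'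

section

variable {α : Type} [MeasurableSpace α] {μ : Measure α} [IsProbabilityMeasure μ]

theorem int_le_one (F : α → ℝ) (hF : ∀ x, |F x| ≤ 1) : |∫ x, F x ∂μ| ≤ 1 := by
  have := norm_integral_le_of_norm_le_const (μ := μ) (f := F) (C := 1)
    (Eventually.of_forall fun x => by simpa [Real.norm_eq_abs] using hF x)
  simpa [Real.norm_eq_abs] using this

theorem mul3_le (a b c : ℝ) (ha : |a| ≤ 1) (hb : |b| ≤ 1) (hc : |c| ≤ 1) :
    |a * b * c| ≤ 1 := by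
  rw [abs_mul, abs_mul]
  exact mul_le_one₀ (mul_le_one₀ ha (abs_nonneg _) hb) (abs_nonneg _) hc

theorem mul2_le (a b : ℝ) (ha : |a| ≤ 1) (hb : |b| ≤ 1) : |a * b| ≤ 1 := by
  rw [abs_mul]
  exact mul_le_one₀ ha (abs_nonneg _) hb

/-- compactness -/
theorem exlim (U : Ultrafilter ℕ) (u : ℕ → ℝ) (hu : ∀ j, |u j| ≤ 1) :
    ∃ l, Tendsto u U (𝓝 l) := by
  have h := (isCompact_Icc (a := (-1 : ℝ)) (b := 1)).ultrafilter_le_nhds (U.map u) (by
    rw [le_principal_iff]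
    exact mem_map.2 (Filter.univ_mem' fun j => abs_le.1 (hu j)))
  obtain ⟨l, _, hl⟩ := h
  exact ⟨l, hl⟩

theorem bd_Av {T S : α ≃ᵐ α} {a b : ℕ → ℕ} {f g : α → ℝ} (hf : Bd f) (hg : Bd g) (N : ℕ) :
    Bd (Av T S a b f g N) := by
  refine ⟨?_, fun x => avg_le_one N _ fun k => mul2_le _ _ (hf.2 _) (hg.2 _)⟩
  unfold Av
  refine measurable_const.mul (Finset.measurable_sum _ fun k _ => ?_)
  exact (hf.1.comp (T.measurable.iterate _)).mul (hg.1.comp (S.measurable.iterate _))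

theorem PhN_le {T S R : α ≃ᵐ α} {a b : ℕ → ℕ} {f g h : α → ℝ} (hf : Bd f) (hg : Bd g) (hh : Bd h)
    (N : ℕ) (p : ℤ × ℤ) : |PhN T S R μ a b f g h N p| ≤ 1 :=
  avg_le_one N _ fun _ => int_le_one _ fun _ => mul3_le _ _ _ (hh.2 _) (hf.2 _) (hg.2 _)

theorem PhN_zero (hz : ∀ (R : α ≃ᵐ α) x, zp R 0 x = x) {T S R : α ≃ᵐ α} {a b : ℕ → ℕ}
    {f g : α → ℝ} (hf : Bd f) (hg : Bd g) (N : ℕ) :
    PhN T S R μ a b f g (Av T S a b f g N) N 0 = ∫ x, (Av T S a b f g N x) ^ 2 ∂μ := by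
  have hA := bd_Av (T := T) (S := S) (a := a) (b := b) hf hg N
  have hi : ∀ k, Integrable (fun x => Av T S a b f g N x * f ((⇑T)^[a k] x) *
      g ((⇑S)^[b k] x)) μ := by
    intro k
    refine Integrable.of_bound (C := 1) ?_ (Eventually.of_forall fun x => ?_)
    · exact ((hA.1.mul (hf.1.comp (T.measurable.iterate _))).mul
        (hg.1.comp (S.measurable.iterate _))).aestronglyMeasurable
    · rw [Real.norm_eq_abs]
      exact mul3_le _ _ _ (hA.2 _) (hf.2 _) (hg.2 _)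
  unfold PhN
  simp only [Prod.fst_zero, Prod.snd_zero, hz]
  rw [← integral_finsetSum _ fun k _ => hi k, ← integral_const_mul]
  refine integral_congr_ae (Eventually.of_forall fun x => ?_)
  simp only []
  rw [Finset.sum_congr rfl (fun k _ => mul_assoc _ _ _), ← Finset.mul_sum]
  have : Av T S a b f g N x =
    (N : ℝ)⁻¹ * ∑ k ∈ Finset.range N, f ((⇑T)^[a k] x) * g ((⇑S)^[b k] x) := rfl
  rw [sq]
  nth_rewrite 3 [this]
  ring

end

theorem gLF6 : G_LF6 := by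
  intro hZP hRPD α _ μ _ T S R a b f g hW hs hf hg hnot
  have hz : ∀ (R : α ≃ᵐ α) x, zp R 0 x = x := fun R x => (hZP α R).1 x
  have h1 : ∃ c : ℝ, 0 < c ∧ ∀ j : ℕ, ∃ N, j ≤ N ∧ c ≤ ∫ x, (Av T S a b f g N x) ^ 2 ∂μ := by
    by_contra hcon
    push Not at hcon
    apply hnot
    rw [Metric.tendsto_atTop]
    intro ε hε
    obtain ⟨j, hj⟩ := hcon ε hε
    refine ⟨j, fun n hn => ?_⟩
    rw [Real.dist_eq, sub_zero, abs_of_nonneg (integral_nonneg fun x => sq_nonneg _)]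
    exact hj n hn
  obtain ⟨c, hc, hcN⟩ := h1
  choose Nj hNj hcj using hcN
  let h : ℕ → α → ℝ := fun j => Av T S a b f g (Nj j)
  have hh : ∀ j, Bd (h j) := fun j => bd_Av hf hg (Nj j)
  let U : Ultrafilter ℕ := hyperfilter ℕ
  have hφ : ∀ p : ℤ × ℤ, ∃ l, Tendsto (fun j => PhN T S R μ a b f g (h j) (Nj j) p) U (𝓝 l) :=
    fun p => exlim U _ fun j => PhN_le hf hg (hh j) _ _
  have hr : ∀ k : ℤ, ∃ l, Tendsto (fun j => rr R μ (h j) k) U (𝓝 l) :=
    fun k => exlim U _ fun j => int_le_one _ fun x => mul2_le _ _ ((hh j).2 _) ((hh j).2 _)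
  choose φ hφ using hφ
  choose r hr using hr
  have hN : Tendsto Nj U atTop :=
    (tendsto_atTop_mono hNj tendsto_id).mono_left Nat.hyperfilter_le_atTop
  refine ⟨U, Nj, h, φ, r, ⟨hW, hs, hf, hg, hN, hh, hφ, hr⟩, ?_⟩
  have h2 : c ≤ φ 0 := by
    refine ge_of_tendsto' (hφ 0) fun j => ?_
    have := PhN_zero (μ := μ) hz (T := T) (S := S) (R := R) (a := a) (b := b) hf hg (Nj j)
    exact (hcj j).trans (le_of_eq this.symm)
  exact hc.trans_le h2

end Pool.Agent.Helper38.SS
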